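import Pool.Agent.Helper30.AC.Stmts

/-!
# Row LAM of the sheet AC
-/

set_option autoImplicit false

namespace Pool.Agent.Helper25.AC

open Pool.Agent.Helper30.AC Filter Topology

universe u

theorem LAM_sep {E : Type u} [NormedAddCommGroup E] [NormedSpace ℝ E] (K : Set E)
    (y : ℕ → E →L[ℝ] ℝ) (hKc : IsCompact K) (hS : Sep K y) (ε : ℝ) (hε : 0 < ε) (k : ℕ) :
    ∃ n, k ≤ n ∧ ∃ δ : ℝ, 0 < δ ∧ ∀ v ∈ K, ∀ w ∈ K, (∀ i ≤ n, |y i v - y i w| < δ) →
      ‖v - w‖ < ε := by
  by_contra hcon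
  push Not at hcon
  have h1 : ∀ m : ℕ, ∃ p : E × E, p ∈ K ×ˢ K ∧
      (∀ i ≤ k + m, |y i p.1 - y i p.2| < 1 / ((m : ℝ) + 1)) ∧ ε ≤ ‖p.1 - p.2‖ := by
    intro m
    obtain ⟨v, hv, w, hw, h2, h3⟩ := hcon (k + m) (by omega) (1 / ((m : ℝ) + 1)) (by positivity)
    exact ⟨(v, w), ⟨hv, hw⟩, h2, h3⟩
  choose p hpK hpy hpε using h1
  obtain ⟨q, hq, φ, hφ, hlim⟩ := (hKc.prod hKc).tendsto_subseq hpK
  have hl1 : Tendsto (fun m => (p (φ m)).1) atTop (𝓝 q.1) :=
    (continuous_fst.tendsto q).comp hlim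
  have hl2 : Tendsto (fun m => (p (φ m)).2) atTop (𝓝 q.2) :=
    (continuous_snd.tendsto q).comp hlim
  have e1 : ∀ i, y i q.1 = y i q.2 := by
    intro i
    have ha : Tendsto (fun m => y i (p (φ m)).1 - y i (p (φ m)).2) atTop
        (𝓝 (y i q.1 - y i q.2)) :=
      (((y i).continuous.tendsto _).comp hl1).sub (((y i).continuous.tendsto _).comp hl2)
    have hb : Tendsto (fun m => y i (p (φ m)).1 - y i (p (φ m)).2) atTop (𝓝 0) := by
      refine squeeze_zero_norm' ?_ (tendsto_one_div_add_atTop_nhds_zero_nat (𝕜 := ℝ))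
      filter_upwards [eventually_ge_atTop i] with m hm
      have h3 : m ≤ φ m := hφ.id_le m
      have h4 := hpy (φ m) i (by omega)
      rw [Real.norm_eq_abs]
      refine h4.le.trans (one_div_le_one_div_of_le (by positivity) ?_)
      exact_mod_cast Nat.add_le_add_right h3 1
    exact sub_eq_zero.mp (tendsto_nhds_unique ha hb)
  have e2 : q.1 = q.2 := hS _ hq.1 _ hq.2 e1
  have e3 : Tendsto (fun m => ‖(p (φ m)).1 - (p (φ m)).2‖) atTop (𝓝 ‖q.1 - q.2‖) :=
    (hl1.sub hl2).norm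
  have e4 : ε ≤ ‖q.1 - q.2‖ := ge_of_tendsto' e3 (fun m => hpε (φ m))
  rw [e2, sub_self, norm_zero] at e4
  linarith

theorem st_LAM : ST_LAM.{u} := by
  intro E _ _ K y hK hS ε hε k
  obtain ⟨hKc, -, -, -⟩ := hK
  obtain ⟨n, hkn, δ, hδ, hsep⟩ := LAM_sep K y hKc hS ε hε k
  obtain ⟨t, htK, hcov⟩ := hKc.elim_nhds_subcover
    (fun w => {v | ∀ i ∈ Finset.range (n + 1), |y i v - y i w| < δ}) (fun w _ => by
      refine (Filter.eventually_all_finset _).2 fun i _ => ?_
      have hc : Continuous fun v => |y i v - y i w| :=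
        ((y i).continuous.sub continuous_const).abs
      have h0 : |y i w - y i w| < δ := by rw [sub_self, abs_zero]; exact hδ
      exact (hc.tendsto w).eventually_lt_const h0)
  obtain ⟨W, hW⟩ : ∃ W : E → (ℕ → ℝ) → ℝ, ∀ u s, W u s =
    ∏ i ∈ Finset.range (n + 1), max 0 (δ - |s i - y i u|) := ⟨_, fun _ _ => rfl⟩
  have hWc : ∀ u, Continuous (W u) := by
    intro u
    have h : W u = fun s => ∏ i ∈ Finset.range (n + 1), max 0 (δ - |s i - y i u|) :=
      funext fun s => hW u s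
    rw [h]
    refine continuous_finset_prod _ fun i _ => ?_
    exact continuous_const.max (continuous_const.sub ((continuous_apply i).sub
      continuous_const).abs)
  have hW0 : ∀ u s, 0 ≤ W u s := by
    intro u s
    rw [hW]
    exact Finset.prod_nonneg fun i _ => le_max_left _ _
  have hrho : ∀ v, ∀ i ∈ Finset.range (n + 1), rho y n v i = y i v := by
    intro v i hi
    have h : i ≤ n := Nat.lt_succ_iff.mp (Finset.mem_range.mp hi)
    show (if i ≤ n then y i v else 0) = y i v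
    rw [if_pos h]
  have hWpos : ∀ u v, W u (rho y n v) ≠ 0 → ∀ i ≤ n, |y i v - y i u| < δ := by
    intro u v h i hi
    rw [hW] at h
    have hi' : i ∈ Finset.range (n + 1) := Finset.mem_range.mpr (Nat.lt_succ_of_le hi)
    have h2 := Finset.prod_ne_zero_iff.mp h i hi'
    rw [hrho v i hi'] at h2
    by_contra hcon
    apply h2
    rw [max_eq_left]
    linarith [not_lt.mp hcon]
  have hsum : ∀ v ∈ K, 0 < ∑ u ∈ t, W u (rho y n v) := by
    intro v hv
    obtain ⟨u, hu, hvu⟩ := Set.mem_iUnion₂.mp (hcov hv)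
    refine Finset.sum_pos' (fun u _ => hW0 u _) ⟨u, hu, ?_⟩
    rw [hW]
    refine Finset.prod_pos fun i hi => ?_
    rw [hrho v i hi]
    have h3 : |y i v - y i u| < δ := hvu i hi
    exact lt_max_of_lt_right (by linarith)
  refine ⟨n, hkn, fun s => (∑ u ∈ t, W u s)⁻¹ • ∑ u ∈ t, W u s • u, ?_, ?_⟩
  · refine ContinuousOn.smul (ContinuousOn.inv₀ ?_ ?_) ?_
    · exact (continuous_finset_sum _ fun u _ => hWc u).continuousOn
    · rintro _ ⟨v, hv, rfl⟩
      exact (hsum v hv).ne'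
    · exact (continuous_finset_sum _ fun u _ => (hWc u).smul continuous_const).continuousOn
  · intro v hv
    have hp := hsum v hv
    have h4 : (∑ u ∈ t, W u (rho y n v))⁻¹ • ∑ u ∈ t, W u (rho y n v) • u - v =
        (∑ u ∈ t, W u (rho y n v))⁻¹ • ∑ u ∈ t, W u (rho y n v) • (u - v) := by
      simp only [smul_sub, Finset.sum_sub_distrib]
      rw [← Finset.sum_smul, smul_smul, inv_mul_cancel₀ hp.ne', one_smul]
    show ‖(∑ u ∈ t, W u (rho y n v))⁻¹ • ∑ u ∈ t, W u (rho y n v) • u - v‖ ≤ ε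
    rw [h4, norm_smul, norm_inv, Real.norm_of_nonneg hp.le]
    have h5 : ‖∑ u ∈ t, W u (rho y n v) • (u - v)‖ ≤ ∑ u ∈ t, W u (rho y n v) * ε := by
      refine (norm_sum_le _ _).trans (Finset.sum_le_sum fun u hu => ?_)
      rw [norm_smul, Real.norm_of_nonneg (hW0 u _)]
      by_cases h6 : W u (rho y n v) = 0
      · rw [h6, zero_mul, zero_mul]
      · refine mul_le_mul_of_nonneg_left ?_ (hW0 u _)
        rw [norm_sub_rev]
        exact (hsep v hv u (htK u hu) (hWpos u v h6)).le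
    rw [← Finset.sum_mul] at h5
    rw [inv_mul_le_iff₀ hp]
    exact h5

end Pool.Agent.Helper25.AC
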